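import Pool.Agent.W598.IA.Stm

/-!
Project IA, part TREE: the action on words of a group preserving congruences modulo powers of two.
-/

set_option autoImplicit false

namespace Pool.Agent.W586.IA

open Pool.Agent.W598.IA

section

variable {V : Type} [AddCommGroup V] {n : ℕ}

/-- The value of a word. -/
def val (dig : Fin n → V) : List (Fin n) → V
  | [] => 0
  | x :: w => dig x + (2 : ℤ) • val dig w

/-- The word of length `k` of a vector. -/
def wd (e : Fin n × V ≃ V) : ℕ → V → List (Fin n)
  | 0, _ => []
  | k + 1, v => (e.symm v).1 :: wd e k (e.symm v).2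

/-- Congruence. -/
def Cg (k : ℕ) (v w : V) : Prop := ∃ z, v - w = (2 ^ k : ℤ) • z

theorem Cg.symm {k : ℕ} {v w : V} (h : Cg k v w) : Cg k w v := by
  obtain ⟨z, hz⟩ := h
  exact ⟨-z, by rw [smul_neg, ← hz]; abel⟩

theorem Cg.trans {k : ℕ} {u v w : V} (h : Cg k u v) (h' : Cg k v w) : Cg k u w := by
  obtain ⟨z, hz⟩ := h
  obtain ⟨z', hz'⟩ := h'
  exact ⟨z + z', by rw [smul_add, ← hz, ← hz']; abel⟩

theorem wd_length (e : Fin n × V ≃ V) (k : ℕ) (v : V) : (wd e k v).length = k := by
  induction k generalizing v with
  | zero => rfl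
  | succ k ih => simp [wd, ih]

theorem wd_val (dig : Fin n → V) (e : Fin n × V ≃ V)
    (he : ∀ p, e p = dig p.1 + (2 : ℤ) • p.2) (w : List (Fin n)) :
    wd e w.length (val dig w) = w := by
  induction w with
  | nil => rfl
  | cons x w ih =>
    have h1 : e.symm (val dig (x :: w)) = (x, val dig w) := by
      rw [Equiv.symm_apply_eq, he]
      rfl
    simp only [List.length_cons, wd, h1, ih]

theorem cg_wd (dig : Fin n → V) (e : Fin n × V ≃ V)
    (he : ∀ p, e p = dig p.1 + (2 : ℤ) • p.2) (k : ℕ) (v : V) :
    Cg k v (val dig (wd e k v)) := by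
  induction k generalizing v with
  | zero => exact ⟨v, by simp [wd, val]⟩
  | succ k ih =>
    obtain ⟨z, hz⟩ := ih (e.symm v).2
    refine ⟨z, ?_⟩
    have h1 : v = dig (e.symm v).1 + (2 : ℤ) • (e.symm v).2 := by
      rw [← he, Equiv.apply_symm_apply]
    have h2 : v - val dig (wd e (k + 1) v)
        = (2 : ℤ) • ((e.symm v).2 - val dig (wd e k (e.symm v).2)) := by
      have h3 : (2 : ℤ) • (e.symm v).2 = v - dig (e.symm v).1 := by
        rw [eq_sub_iff_add_eq, add_comm]
        exact h1.symm
      simp only [wd, val, smul_sub, h3]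
      abel
    rw [h2, hz, smul_smul, pow_succ']

theorem wd_congr (dig : Fin n → V) (e : Fin n × V ≃ V)
    (he : ∀ p, e p = dig p.1 + (2 : ℤ) • p.2) (k : ℕ) (v v' : V) (h : Cg k v v') :
    wd e k v = wd e k v' := by
  induction k generalizing v v' with
  | zero => rfl
  | succ k ih =>
    obtain ⟨z, hz⟩ := h
    have h1 : v = dig (e.symm v).1 + (2 : ℤ) • (e.symm v).2 := by
      rw [← he, Equiv.apply_symm_apply]
    have h2 : v' = dig (e.symm v').1 + (2 : ℤ) • (e.symm v').2 := by
      rw [← he, Equiv.apply_symm_apply]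
    have h3 : e ((e.symm v').1, (e.symm v').2 + (2 ^ k : ℤ) • z) = v := by
      rw [he]
      simp only [smul_add, smul_smul]
      rw [← add_assoc, ← h2, ← pow_succ', ← hz]
      abel
    have h4 : e.symm v = ((e.symm v').1, (e.symm v').2 + (2 ^ k : ℤ) • z) := by
      rw [Equiv.symm_apply_eq, h3]
    simp only [wd]
    rw [h4]
    simp only
    rw [ih ((e.symm v').2 + (2 ^ k : ℤ) • z) (e.symm v').2 ⟨z, by abel⟩]

end

theorem main : S_TREE := by
  intro V _ n dig hbij hsep B _ _ _ hB
  obtain ⟨e, he⟩ : ∃ e : Fin n × V ≃ V, ∀ p, e p = dig p.1 + (2 : ℤ) • p.2 :=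
    ⟨Equiv.ofBijective _ hbij, fun p => rfl⟩
  have hBc : ∀ (b : B) (k : ℕ) (x y : V), Cg k x y → Cg k (b • x) (b • y) := hB
  let act : MulAction B (List (Fin n)) :=
    { smul := fun b w => wd e w.length (b • val dig w)
      one_smul := fun w => by
        change wd e w.length ((1 : B) • val dig w) = w
        rw [one_smul, wd_val dig e he]
      mul_smul := fun b c w => by
        change wd e w.length ((b * c) • val dig w) =
          wd e (wd e w.length (c • val dig w)).length
            (b • val dig (wd e w.length (c • val dig w)))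
        rw [wd_length, mul_smul]
        exact wd_congr dig e he _ _ _ (hBc b _ _ _ (cg_wd dig e he _ _)) }
  refine ⟨@MulAction.toPermHom B (List (Fin n)) _ act, ?_, ?_⟩
  · rw [injective_iff_map_eq_one]
    intro b hb
    have h1 : ∀ w : List (Fin n), wd e w.length (b • val dig w) = w := by
      intro w
      have := congrArg (fun g : Equiv.Perm (List (Fin n)) => g w) hb
      exact this
    refine eq_of_smul_eq_smul (α := V) fun v => ?_
    rw [one_smul]
    rw [← sub_eq_zero]
    refine hsep _ fun k => ?_
    have h2 := cg_wd dig e he k v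
    have h3 := hBc b k _ _ h2
    have h4 := h1 (wd e k v)
    rw [wd_length] at h4
    have h5 := cg_wd dig e he k (b • val dig (wd e k v))
    rw [h4] at h5
    exact (h3.trans h5).trans h2.symm
  · intro m A f hf s w
    change wd e w.length (f s • val dig w) = A.act s w
    induction w generalizing s with
    | nil => rfl
    | cons x w ih =>
      have h1 : e.symm (f s • val dig (x :: w)) = (A.out s x, f (A.next s x) • val dig w) := by
        rw [Equiv.symm_apply_eq, he]
        exact hf s x (val dig w)
      simp only [List.length_cons, wd, h1, Automaton.act]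
      rw [ih]

end Pool.Agent.W586.IA
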